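import Mathlib
import Pool.Agent.W622.RB.Defs

/-! RB-LPC: CW complexes are locally path connected. -/

set_option autoImplicit false

namespace Pool.Agent.W366.RB.Lpc

open Topology Metric Set Filter

theorem convex_lpc {E : Type*} [NormedAddCommGroup E] [NormedSpace ℝ E] {C : Set E}
    (hC : Convex ℝ C) : LocallyPathConnectedSpace C := by
  refine LocallyPathConnectedSpace.of_bases (fun x => Metric.nhds_basis_ball) ?_
  intro x ε hε
  rw [Topology.IsInducing.subtypeVal.isPathConnected_iff]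
  have h : Subtype.val '' (ball x ε : Set C) = ball (x : E) ε ∩ C := by
    ext y
    constructor
    · rintro ⟨z, hz, rfl⟩
      exact ⟨hz, z.2⟩
    · rintro ⟨hy, hyC⟩
      exact ⟨⟨y, hyC⟩, hy, rfl⟩
  rw [h]
  exact ((convex_ball _ _).inter hC).isPathConnected ⟨x, mem_ball_self hε, x.2⟩

theorem main : Pool.Agent.W622.RB.S_lpc := by
  intro X _ _ _
  let I := Σ n : ℕ, RelCWComplex.cell (Set.univ : Set X) n
  let Z := Σ i : I, (closedBall (0 : Fin i.1 → ℝ) 1 : Set (Fin i.1 → ℝ))
  let q : Z → X := fun z => RelCWComplex.map (C := (Set.univ : Set X)) z.1.1 z.1.2 z.2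
  have hq : IsQuotientMap q := by
    rw [isQuotientMap_iff_isClosed]
    have hcont : Continuous q := by
      refine continuous_sigma fun i => ?_
      exact continuousOn_iff_continuous_domRestrict.mp
        (RelCWComplex.continuousOn (C := (Set.univ : Set X)) i.1 i.2)
    refine ⟨?_, fun A => ⟨fun h => h.preimage hcont, fun h => ?_⟩⟩
    · intro x
      have hx : x ∈ ⋃ (n : ℕ) (j : RelCWComplex.cell (Set.univ : Set X) n),
          RelCWComplex.closedCell n j := by
        rw [CWComplex.union]; exact mem_univ x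
      obtain ⟨n, hn⟩ := mem_iUnion.mp hx
      obtain ⟨j, y, hy, hyx⟩ := mem_iUnion.mp hn
      exact ⟨⟨⟨n, j⟩, ⟨y, hy⟩⟩, hyx⟩
    · rw [CWComplex.closed (C := (Set.univ : Set X)) A (subset_univ _)]
      intro n j
      have h1 : IsClosed ((fun y : (closedBall (0 : Fin n → ℝ) 1 : Set (Fin n → ℝ)) =>
          (⟨⟨n, j⟩, y⟩ : Z)) ⁻¹' (q ⁻¹' A)) :=
        h.preimage (f := fun y : (closedBall (0 : Fin n → ℝ) 1 : Set (Fin n → ℝ)) =>
          (⟨⟨n, j⟩, y⟩ : Z)) (continuous_sigmaMk (σ := fun i : I =>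
          (closedBall (0 : Fin i.1 → ℝ) 1 : Set (Fin i.1 → ℝ))) (i := ⟨n, j⟩))
      have h2 : IsCompact ((fun y : (closedBall (0 : Fin n → ℝ) 1 : Set (Fin n → ℝ)) =>
          (⟨⟨n, j⟩, y⟩ : Z)) ⁻¹' (q ⁻¹' A)) := by
        have : CompactSpace (closedBall (0 : Fin n → ℝ) 1 : Set (Fin n → ℝ)) :=
          isCompact_iff_compactSpace.mp (isCompact_closedBall _ _)
        exact h1.isCompact
      have h3 : Continuous (fun y : (closedBall (0 : Fin n → ℝ) 1 : Set (Fin n → ℝ)) =>
          RelCWComplex.map (C := (Set.univ : Set X)) n j y) :=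
        continuousOn_iff_continuous_domRestrict.mp
          (RelCWComplex.continuousOn (C := (Set.univ : Set X)) n j)
      have h4 := (h2.image h3).isClosed
      have h5 : A ∩ RelCWComplex.closedCell n j = (fun y : (closedBall (0 : Fin n → ℝ) 1 :
          Set (Fin n → ℝ)) => RelCWComplex.map (C := (Set.univ : Set X)) n j y) ''
          ((fun y : (closedBall (0 : Fin n → ℝ) 1 : Set (Fin n → ℝ)) =>
          (⟨⟨n, j⟩, y⟩ : Z)) ⁻¹' (q ⁻¹' A)) := by
        ext x
        constructor
        · rintro ⟨hxA, y, hy, rfl⟩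
          exact ⟨⟨y, hy⟩, hxA, rfl⟩
        · rintro ⟨y, hy, rfl⟩
          exact ⟨hy, y, y.2, rfl⟩
      rw [h5]
      exact h4
  have : ∀ i : I, LocallyPathConnectedSpace
      (closedBall (0 : Fin i.1 → ℝ) 1 : Set (Fin i.1 → ℝ)) := fun i =>
    convex_lpc (convex_closedBall _ _)
  exact hq.locallyPathConnectedSpace

end Pool.Agent.W366.RB.Lpc
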